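import Pool.Agent.Lib.MP_c541f6_an.Final

/-!
# MP_c541f6_an: irrational pseudo-rotations other than the rotation twist in both directions

Let `f` be an area-preserving homeomorphism of the closed disk fixing `0`, all of whose points
(and the directions at `0`) have the same irrational rotation number `α`. If on a nonempty open
invariant set some iterate of `f` rotates every point at least as much as its linear part at `0`
does (or every point at most as much), then it rotates every point of this set exactly as much,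
it is linear near `0` in this set, and if the set is the open disk or `f` is real-analytic, then
`f` is the rotation `R_α`.
-/

open MPc541f6 Set Metric

namespace Pool.Agent.Results.MP_c541f6_an.TwistBothWays

theorem result (f : ℂ → ℂ) (Θ : ℝ × ℝ → ℝ) (α : ℝ) (hf : DiskMap f Θ)
    (hrot : HasRotationNumber f Θ α) (hα : Irrational α) (m : ℕ) (hm : 1 ≤ m)
    (U : Set ℂ) (hU : IsOpen U) (hUD : U ⊆ ball 0 1) (hne : U.Nonempty)
    (hinv : f^[m] '' U = U)
    (hs : (∀ p ∈ strip, pol p ∈ U → ((lift f Θ)^[m] (p.1, 0)).1 ≤ ((lift f Θ)^[m] p).1) ∨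
      (∀ p ∈ strip, pol p ∈ U → ((lift f Θ)^[m] p).1 ≤ ((lift f Θ)^[m] (p.1, 0)).1)) :
    (∀ p ∈ strip, pol p ∈ U → ((lift f Θ)^[m] p).1 = ((lift f Θ)^[m] (p.1, 0)).1) ∧
    (∀ z, segment ℝ 0 z ⊆ U → f^[m] z = fderiv ℝ (f^[m]) 0 z) ∧
    ((U = ball 0 1 ∨ AnalyticOnNhd ℝ f (ball 0 1)) →
      ∀ z ∈ closedBall (0 : ℂ) 1, f z = Complex.exp (2 * Real.pi * Complex.I * α) * z) :=
  main hf hrot hα hm hU hUD hne hinv hs

end Pool.Agent.Results.MP_c541f6_an.TwistBothWays
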