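import Pool.Agent.Lib.MP_c541f6_an.RCrit

/-!
# MP_c541f6_an: circles which are not crossed by their images

Let `k = ∞` or `k = ω` (real-analytic), `f` an area-preserving homeomorphism of the closed disk
fixing `0`, and `α` irrational. Then `f` is `C^k` conjugated to the rotation `R_α` if and only if
there are `C^k` coordinates on the disk in which all points (and the directions at `0`) have
rotation number `α` and the circles around `0` that are not crossed by their image under some
iterate (which may depend on the circle) have radii dense in `(0, 1)`, or, if `k = ω` and `f` is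
real-analytic on a neighbourhood of the closed disk, are infinitely many.
-/

open MPc541f6 Set Metric
open scoped ContDiff

namespace Pool.Agent.Results.MP_c541f6_an.UncrossedCircles

theorem result (k : WithTop ℕ∞) (hk : k = ∞ ∨ k = ω) (f : ℂ → ℂ) (α : ℝ) (hf : AreaMap f)
    (hα : Irrational α) :
    (∃ ψ η : ℂ → ℂ, DiskDiffeo k ψ η ∧
      ∀ z ∈ closedBall (0 : ℂ) 1, ψ (f z) = Complex.exp (2 * Real.pi * Complex.I * α) * ψ z) ↔
    ∃ (ψ η : ℂ → ℂ) (Θ : ℝ × ℝ → ℝ), DiskDiffeo k ψ η ∧ ψ 0 = 0 ∧
      AngleLift (ψ ∘ f ∘ η) Θ ∧ HasRotationNumber (ψ ∘ f ∘ η) Θ α ∧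
      ManyUncrossed k f (ψ ∘ f ∘ η) :=
  radial_criterion hk hf hα

end Pool.Agent.Results.MP_c541f6_an.UncrossedCircles
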